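import Pool.Agent.Lib.QDMan.Main

/-!
# Countably metacompact, quasi-developable manifolds which are not Moore spaces

For every `n ≥ 2` there is an `n`-dimensional manifold which is countably metacompact and
quasi-developable but not developable, hence not a Moore space (in ZFC).
-/

set_option autoImplicit false

open Set Filter Topology

namespace Pool.Agent.Results.MP_81c63a_gt.EveryDimension

universe u

/-- `st(x, G)`: the union of the members of `G` which contain `x`. -/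
def star {X : Type u} (x : X) (G : Set (Set X)) : Set X := ⋃₀ {g | g ∈ G ∧ x ∈ g}

/-- `G` is an open cover of `X`. -/
def IsOpenCover {X : Type u} [TopologicalSpace X] (G : Set (Set X)) : Prop :=
  (∀ g ∈ G, IsOpen g) ∧ ⋃₀ G = Set.univ

/-- `X` is an `n`-dimensional manifold: Hausdorff, and every point has an open neighbourhood
homeomorphic to `ℝⁿ`. -/
def IsManifold (n : ℕ) (X : Type u) [TopologicalSpace X] : Prop :=
  (∀ x y : X, x ≠ y → ∃ U V : Set X, IsOpen U ∧ IsOpen V ∧ x ∈ U ∧ y ∈ V ∧ Disjoint U V) ∧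
  ∀ x : X, ∃ U : Set X, IsOpen U ∧ x ∈ U ∧ Nonempty (U ≃ₜ EuclideanSpace ℝ (Fin n))

/-- Every countable open cover has a point-finite open refinement. -/
def CountablyMetacompact (X : Type u) [TopologicalSpace X] : Prop :=
  ∀ U : Set (Set X), U.Countable → IsOpenCover U →
    ∃ V : Set (Set X), IsOpenCover V ∧ (∀ v ∈ V, ∃ w ∈ U, v ⊆ w) ∧
      ∀ x : X, {v | v ∈ V ∧ x ∈ v}.Finite

/-- There are families `G 0, G 1, ...` of open sets such that for every point `x` and every open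
`U` containing `x` there is `k` with `x ∈ st(x, G k) ⊆ U`. -/
def QuasiDevelopable (X : Type u) [TopologicalSpace X] : Prop :=
  ∃ G : ℕ → Set (Set X), (∀ k, ∀ g ∈ G k, IsOpen g) ∧
    ∀ (x : X) (U : Set X), IsOpen U → x ∈ U → ∃ k, x ∈ star x (G k) ∧ star x (G k) ⊆ U

/-- The same with every `G k` an open cover of `X`. -/
def Developable (X : Type u) [TopologicalSpace X] : Prop :=
  ∃ G : ℕ → Set (Set X), (∀ k, IsOpenCover (G k)) ∧
    ∀ (x : X) (U : Set X), IsOpen U → x ∈ U → ∃ k, x ∈ star x (G k) ∧ star x (G k) ⊆ U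

/-- A Moore space: regular and developable. -/
def MooreSpace (X : Type u) [TopologicalSpace X] : Prop := RegularSpace X ∧ Developable X

/-! ### The product of `M` with a Euclidean space -/

/-- the Euclidean factor -/
abbrev E (k : ℕ) : Type := EuclideanSpace ℝ (Fin k)

theorem isOpen_le_sup {Y : Type} [TopologicalSpace Y] {k : ℕ} (g : Y × E k → ℕ)
    (hg : ∀ n, IsOpen {q | g q ≤ n}) (c n : ℕ) :
    IsOpen {y : Y | ∀ v ∈ Metric.closedBall (0 : E k) c, g (y, v) ≤ n} := by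
  rw [isOpen_iff_mem_nhds]
  intro y hy
  obtain ⟨O, W, hO, -, hyO, hW, hsub⟩ := generalized_tube_lemma (isCompact_singleton (x := y))
    (isCompact_closedBall (0 : E k) c) (hg n) (by
      rintro ⟨a, v⟩ ⟨ha, hv⟩
      rw [Set.mem_singleton_iff] at ha
      subst ha
      exact hy v hv)
  refine Filter.mem_of_superset (hO.mem_nhds (hyO rfl)) fun z hz v hv => ?_
  exact hsub (Set.mk_mem_prod hz (hW hv))

theorem exists_lsc_prod {k : ℕ} (g : QDMan.M × E k → ℕ) (hg : ∀ n, IsOpen {q | g q ≤ n}) :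
    ∃ h : QDMan.M × E k → ℕ, (∀ q, g q ≤ h q) ∧ ∀ n, IsOpen {q | n ≤ h q} := by
  classical
  have hb : ∀ (c : ℕ) (y : QDMan.M), ∃ n, ∀ v ∈ Metric.closedBall (0 : E k) c, g (y, v) ≤ n := by
    intro c y
    obtain ⟨n, hn⟩ := (isCompact_closedBall (0 : E k) (c : ℝ)).elim_directed_cover
      (fun n : ℕ => {v : E k | g (y, v) ≤ n})
      (fun n => (hg n).preimage (by fun_prop))
      (fun v _ => mem_iUnion.2 ⟨g (y, v), show g (y, v) ≤ g (y, v) from le_rfl⟩)
      (fun a b => ⟨max a b, fun v hv => le_trans hv (le_max_left a b),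
        fun v hv => le_trans hv (le_max_right a b)⟩)
    exact ⟨n, fun v hv => hn hv⟩
  have h1 : ∀ c : ℕ, ∃ h : QDMan.M → ℕ, (∀ y, ∀ v ∈ Metric.closedBall (0 : E k) c,
      g (y, v) ≤ h y) ∧ ∀ n, IsOpen {q | n ≤ h q} := by
    intro c
    obtain ⟨h, h1, h2⟩ := QDMan.exists_lsc_M (fun y => Nat.find (hb c y)) (by
      intro n
      have : {y : QDMan.M | Nat.find (hb c y) ≤ n} =
          {y | ∀ v ∈ Metric.closedBall (0 : E k) c, g (y, v) ≤ n} := by
        ext y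
        constructor
        · intro hy v hv
          exact (Nat.find_spec (hb c y) v hv).trans hy
        · intro hy
          exact Nat.find_le hy
      rw [this]
      exact isOpen_le_sup g hg c n)
    exact ⟨h, fun y v hv => (Nat.find_spec (hb c y) v hv).trans (h1 y), h2⟩
  choose h h2 h3 using h1
  -- the maximum of the first functions
  let H : ℕ → QDMan.M → ℕ := fun c y => (Finset.range (c + 1)).sup fun i => h i y
  have hH : ∀ c y, h c y ≤ H c y := fun c y =>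
    Finset.le_sup (f := fun i => h i y) (Finset.self_mem_range_succ c)
  have hmono : ∀ y, Monotone fun c => H c y := fun y a b hab =>
    Finset.sup_mono (Finset.range_mono (Nat.succ_le_succ hab))
  have hopen : ∀ c n, IsOpen {y | n ≤ H c y} := by
    intro c n
    rcases Nat.eq_zero_or_pos n with rfl | hn
    · simp
    · have : {y | n ≤ H c y} = ⋃ i ∈ Finset.range (c + 1), {y | n ≤ h i y} := by
        ext y
        simp only [mem_ofPred_eq, mem_iUnion, exists_prop, H]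
        rw [Finset.le_sup_iff (by simpa using hn)]
      rw [this]
      exact isOpen_biUnion fun i _ => h3 i n
  refine ⟨fun q => H ⌈‖q.2‖⌉₊ q.1, fun q => ?_, fun n => ?_⟩
  · refine le_trans (h2 ⌈‖q.2‖⌉₊ q.1 q.2 ?_) (hH _ _)
    rw [mem_closedBall_zero_iff]
    exact Nat.le_ceil _
  · rw [isOpen_iff_mem_nhds]
    rintro ⟨y, v⟩ hq
    have hq' : n ≤ H ⌈‖v‖⌉₊ y := hq
    have e1 : ∀ᶠ p : QDMan.M × E k in 𝓝 (y, v), n ≤ H ⌈‖v‖⌉₊ p.1 :=
      continuous_fst.tendsto (y, v) ((hopen _ n).mem_nhds hq')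
    have e2 : ∀ᶠ p : QDMan.M × E k in 𝓝 (y, v), ⌈‖v‖⌉₊ ≤ ⌈‖p.2‖⌉₊ :=
      ((continuous_norm.comp continuous_snd).tendsto (y, v)).eventually (QDMan.ceil_lsc ‖v‖)
    filter_upwards [e1, e2] with p hp1 hp2
    exact hp1.trans (hmono p.1 hp2)

theorem cm_prod (k : ℕ) : CountablyMetacompact (QDMan.M × E k) := by
  classical
  intro 𝒰 hc h𝒰
  -- enumerate the cover
  obtain ⟨U, hU⟩ : ∃ U : ℕ → Set (QDMan.M × E k), 𝒰 ∪ {∅} = range U :=
    (hc.union (Set.countable_singleton ∅)).exists_eq_range ⟨∅, Or.inr rfl⟩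
  have hUo : ∀ i, IsOpen (U i) := by
    intro i
    rcases (hU ▸ mem_range_self i : U i ∈ 𝒰 ∪ {∅}) with h | h
    · exact h𝒰.1 _ h
    · rw [Set.mem_singleton_iff] at h
      rw [h]
      exact isOpen_empty
  have hex : ∀ q : QDMan.M × E k, ∃ i, q ∈ U i := by
    intro q
    have : q ∈ ⋃₀ 𝒰 := by rw [h𝒰.2]; trivial
    obtain ⟨w, hw, hqw⟩ := this
    obtain ⟨i, hi⟩ : w ∈ range U := hU ▸ Or.inl hw
    exact ⟨i, hi ▸ hqw⟩
  obtain ⟨h, h1, h2⟩ := exists_lsc_prod (fun q => Nat.find (hex q)) (by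
    intro n
    have : {q : QDMan.M × E k | Nat.find (hex q) ≤ n} = ⋃ i ∈ Set.Iic n, U i := by
      ext q
      simp only [mem_ofPred_eq, mem_iUnion, Set.mem_Iic, exists_prop]
      rw [Nat.find_le_iff]
    rw [this]
    exact isOpen_biUnion fun i _ => hUo i)
  refine ⟨{v | v.Nonempty ∧ ∃ i, v = U i ∩ {q | i ≤ h q}}, ⟨?_, ?_⟩, ?_, ?_⟩
  · rintro v ⟨-, i, rfl⟩
    exact (hUo i).inter (h2 i)
  · rw [Set.eq_univ_iff_forall]
    intro q
    have hq : q ∈ U (Nat.find (hex q)) ∩ {p | Nat.find (hex q) ≤ h p} :=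
      ⟨Nat.find_spec (hex q), h1 q⟩
    exact ⟨_, ⟨⟨q, hq⟩, _, rfl⟩, hq⟩
  · rintro v ⟨⟨q, hq⟩, i, rfl⟩
    rcases (hU ▸ mem_range_self i : U i ∈ 𝒰 ∪ {∅}) with h' | h'
    · exact ⟨U i, h', inter_subset_left⟩
    · rw [Set.mem_singleton_iff] at h'
      rw [h'] at hq
      exact absurd hq.1 (Set.notMem_empty q)
  · intro q
    refine ((Set.finite_Iic (h q)).image fun i => U i ∩ {p | i ≤ h p}).subset ?_
    rintro v ⟨⟨-, i, rfl⟩, hq⟩
    exact ⟨i, hq.2, rfl⟩

theorem mem_star {X : Type u} {x y : X} {G : Set (Set X)} :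
    y ∈ star x G ↔ ∃ g ∈ G, x ∈ g ∧ y ∈ g := by
  unfold star
  rw [Set.mem_sUnion]
  constructor
  · rintro ⟨g, ⟨h1, h2⟩, h3⟩
    exact ⟨g, h1, h2, h3⟩
  · rintro ⟨g, h1, h2, h3⟩
    exact ⟨g, ⟨h1, h2⟩, h3⟩

theorem qd_prod (k : ℕ) : QuasiDevelopable (QDMan.M × E k) := by
  obtain ⟨G, hG1, hG2⟩ := QDMan.qd_M
  obtain ⟨B, hBc, -, hB⟩ := TopologicalSpace.exists_countable_basis (E k)
  obtain ⟨b, hb⟩ := (hBc.union (Set.countable_singleton (Set.univ : Set (E k)))).exists_eq_range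
    ⟨Set.univ, Or.inr rfl⟩
  have hbo : ∀ i, IsOpen (b i) := by
    intro i
    rcases (hb ▸ mem_range_self i : b i ∈ B ∪ {Set.univ}) with h | h
    · exact hB.isOpen h
    · rw [Set.mem_singleton_iff] at h
      rw [h]
      exact isOpen_univ
  refine ⟨fun m => {w | ∃ g ∈ G m.unpair.1, w = g ×ˢ b m.unpair.2}, ?_, ?_⟩
  · rintro m w ⟨g, hg, rfl⟩
    exact (hG1 _ g hg).prod (hbo _)
  · rintro ⟨x, v⟩ U hU hx
    obtain ⟨A, C, hA, hC, hxA, hvC, hsub⟩ := isOpen_prod_iff.1 hU x v hx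
    obtain ⟨i, ⟨g, hg, hxg⟩, hi⟩ := hG2 x A hA hxA
    obtain ⟨w, hw, hvw, hwC⟩ := hB.exists_subset_of_mem_open hvC hC
    obtain ⟨j, hj⟩ : w ∈ range b := hb ▸ Or.inl hw
    refine ⟨Nat.pair i j, ?_, ?_⟩
    · rw [mem_star]
      refine ⟨g ×ˢ b j, ⟨g, ?_, ?_⟩, ⟨hxg, hj ▸ hvw⟩, ⟨hxg, hj ▸ hvw⟩⟩
      · rw [Nat.unpair_pair]; exact hg
      · rw [Nat.unpair_pair]
    · rintro ⟨y, z⟩ hy
      rw [mem_star] at hy
      obtain ⟨w', ⟨g', hg', rfl⟩, h1, h2⟩ := hy
      rw [Nat.unpair_pair] at hg' h1 h2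
      refine hsub ⟨hi g' hg' h1.1 h2.1, hwC ?_⟩
      rw [← hj]
      exact h2.2

theorem not_developable_prod (k : ℕ) : ¬ Developable (QDMan.M × E k) := by
  rintro ⟨G, hG1, hG2⟩
  refine QDMan.not_developable_M ⟨fun m => {w | ∃ g ∈ G m, w = {x | (x, (0 : E k)) ∈ g}}, ?_, ?_⟩
  · intro m
    refine ⟨?_, ?_⟩
    · rintro w ⟨g, hg, rfl⟩
      exact ((hG1 m).1 g hg).preimage (by fun_prop : Continuous fun x : QDMan.M => (x, (0 : E k)))
    · rw [Set.eq_univ_iff_forall]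
      intro x
      have : (x, (0 : E k)) ∈ ⋃₀ G m := by rw [(hG1 m).2]; trivial
      obtain ⟨g, hg, hx⟩ := this
      exact ⟨_, ⟨g, hg, rfl⟩, hx⟩
  · intro x U hU hx
    obtain ⟨m, -, hm⟩ := hG2 (x, 0) (U ×ˢ Set.univ) (hU.prod isOpen_univ) ⟨hx, trivial⟩
    refine ⟨m, ?_⟩
    rintro w ⟨g, hg, rfl⟩ hxg y hy
    exact (hm (mem_star.2 ⟨g, hg, hxg, hy⟩)).1

theorem isManifold_prod (k : ℕ) : IsManifold (k + 2) (QDMan.M × E k) := by
  refine ⟨fun x y hxy => ?_, fun x => ?_⟩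
  · obtain ⟨U, V, h1, h2, h3, h4, h5⟩ := t2_separation hxy
    exact ⟨U, V, h1, h2, h3, h4, h5⟩
  · have hf : IsOpenEmbedding (Prod.map (QDMan.Fm x.1.lc) (id : E k → E k)) :=
      (QDMan.isOpenEmbedding_Fm _).prodMap IsOpenEmbedding.id
    obtain ⟨p, hp⟩ := QDMan.exists_Fm_eq x.1
    refine ⟨range (Prod.map (QDMan.Fm x.1.lc) (id : E k → E k)), hf.isOpen_range,
      ⟨(p, x.2), by rw [Prod.map_apply, hp]; rfl⟩, ⟨?_⟩⟩
    have e : ((ℝ × ℝ) × E k) ≃L[ℝ] EuclideanSpace ℝ (Fin (k + 2)) :=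
      ContinuousLinearEquiv.ofFinrankEq (by simp [add_comm])
    exact hf.isEmbedding.toHomeomorph.symm.trans e.toHomeomorph

instance : LocallyCompactSpace QDMan.M :=
  ChartedSpace.locallyCompactSpace (EuclideanSpace ℝ (Fin 2)) QDMan.M

/-- For every `n ≥ 2` there is a countably metacompact, quasi-developable manifold of dimension `n`
which is not a Moore space: it is regular but not developable. -/
theorem result (n : ℕ) (hn : 2 ≤ n) :
    ∃ (X : Type) (_ : TopologicalSpace X), IsManifold n X ∧ CountablyMetacompact X ∧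
      QuasiDevelopable X ∧ RegularSpace X ∧ ¬ Developable X ∧ ¬ MooreSpace X := by
  obtain ⟨k, rfl⟩ := Nat.exists_eq_add_of_le' hn
  exact ⟨QDMan.M × E k, inferInstance, isManifold_prod k, cm_prod k, qd_prod k, inferInstance,
    not_developable_prod k, fun h => not_developable_prod k h.2⟩

end Pool.Agent.Results.MP_81c63a_gt.EveryDimension
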